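import Mathlib

/-!
# A quaternionic function with inner symmetrization that is not inner

For `f(q) = ∑ q ^ n i ^ n / n!` the symmetrization is the constant function `1`, which is inner, while
`|f(-i/2)| = exp(1/2) > 1`, so that `f` is not inner.
-/

set_option autoImplicit false

open MeasureTheory Filter Topology Finset
open scoped Quaternion

namespace Pool.Agent.Results.MP_3b44a3_an.SymmetrizationInner

/-- The power series `∑ q ^ n a n` with quaternionic coefficients on the right. -/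
noncomputable def series (a : ℕ → ℍ[ℝ]) (q : ℍ[ℝ]) : ℍ[ℝ] := ∑' n, q ^ n * a n

/-- Coefficients of the conjugate function. -/
noncomputable def conjCoeff (a : ℕ → ℍ[ℝ]) (n : ℕ) : ℍ[ℝ] := star (a n)

/-- Coefficients of the `*`-product. -/
noncomputable def starMul (a b : ℕ → ℍ[ℝ]) (n : ℕ) : ℍ[ℝ] := ∑ k ∈ range (n + 1), a k * b (n - k)

/-- Coefficients of the symmetrization. -/
noncomputable def symm (a : ℕ → ℍ[ℝ]) : ℕ → ℍ[ℝ] := starMul a (conjCoeff a)

/-- The coefficient sequence defines a function of the Hardy space `H²(𝔹)`. -/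
def MemH2 (a : ℕ → ℍ[ℝ]) : Prop := Summable fun n => ‖a n‖ ^ 2

/-- The boundary point `e ^ (t I) = cos t + I sin t`, where the imaginary unit `I` is given by a point of
the unit sphere of three-dimensional Euclidean space. -/
noncomputable def bdry (p : ℝ × Metric.sphere (0 : EuclideanSpace ℝ (Fin 3)) 1) : ℍ[ℝ] :=
  ⟨Real.cos p.1, Real.sin p.1 * (p.2 : EuclideanSpace ℝ (Fin 3)) 0,
    Real.sin p.1 * (p.2 : EuclideanSpace ℝ (Fin 3)) 1, Real.sin p.1 * (p.2 : EuclideanSpace ℝ (Fin 3)) 2⟩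

/-- The measure `dσ(I) dt` on the boundary of the ball (up to normalization). -/
noncomputable def bdryMeasure : Measure (ℝ × Metric.sphere (0 : EuclideanSpace ℝ (Fin 3)) 1) :=
  ((volume : Measure ℝ).restrict (Set.Ioc 0 (2 * Real.pi))).prod
    (volume : Measure (EuclideanSpace ℝ (Fin 3))).toSphere

/-- The function with coefficient sequence `a ∈ ℓ²` is inner: it is bounded by `1` on the open unit
ball, and its radial limits exist and have norm `1` at almost every boundary point. -/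
def IsInner (a : ℕ → ℍ[ℝ]) : Prop :=
  MemH2 a ∧ (∀ q : ℍ[ℝ], ‖q‖ < 1 → ‖series a q‖ ≤ 1) ∧
    ∀ᵐ p ∂bdryMeasure, ∃ w : ℍ[ℝ],
      Tendsto (fun r : ℝ => series a (r • bdry p)) (𝓝[<] 1) (𝓝 w) ∧ ‖w‖ = 1

/-- The quaternion `i`. -/
def qi : ℍ[ℝ] := ⟨0, 1, 0, 0⟩

/-- The coefficients `i ^ n / n!`. -/
noncomputable def af (n : ℕ) : ℍ[ℝ] := ((n.factorial : ℝ)⁻¹) • qi ^ n

theorem qi_re : qi.re = 0 := rfl
theorem qi_imI : qi.imI = 1 := rfl
theorem qi_imJ : qi.imJ = 0 := rfl
theorem qi_imK : qi.imK = 0 := rfl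

theorem star_qi : star qi = -qi := by
  ext <;> simp [qi_re, qi_imI, qi_imJ, qi_imK]

theorem qi_sq : qi * qi = -1 := by
  ext <;> simp [qi_re, qi_imI, qi_imJ, qi_imK]

theorem norm_qi : ‖qi‖ = 1 := by
  have h : ‖qi‖ * ‖qi‖ = 1 := by
    rw [← norm_mul, qi_sq, norm_neg, norm_one]
  nlinarith [norm_nonneg qi]

theorem star_af (n : ℕ) : star (af n) = ((n.factorial : ℝ)⁻¹) • (-qi) ^ n := by
  unfold af
  rw [Quaternion.star_smul, star_pow, star_qi]

theorem symm_af (n : ℕ) : symm af n = if n = 0 then 1 else 0 := by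
  have h1 : symm af n = ((n.factorial : ℝ)⁻¹) • (qi + -qi) ^ n := by
    rw [Commute.add_pow (Commute.neg_right (Commute.refl qi))]
    unfold symm starMul conjCoeff
    rw [smul_sum]
    apply sum_congr rfl
    intro k hk
    rw [mem_range] at hk
    rw [star_af, af, smul_mul_smul_comm, ← nsmul_eq_mul', smul_comm, ← Nat.cast_smul_eq_nsmul ℝ, smul_smul]
    congr 1
    have hkn : k ≤ n := by omega
    rw [Nat.cast_choose ℝ hkn]
    have h2 : (n.factorial : ℝ) ≠ 0 := by exact_mod_cast n.factorial_ne_zero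
    have h3 : (k.factorial : ℝ) ≠ 0 := by exact_mod_cast k.factorial_ne_zero
    have h4 : ((n - k).factorial : ℝ) ≠ 0 := by exact_mod_cast (n - k).factorial_ne_zero
    field_simp
  rw [h1, add_neg_cancel]
  split_ifs with h
  · subst h; simp
  · rw [zero_pow h, smul_zero]

theorem symm_eq : symm af = fun n => if n = 0 then 1 else 0 := funext symm_af

theorem series_one (q : ℍ[ℝ]) : series (fun n => if n = 0 then 1 else 0) q = 1 := by
  unfold series
  rw [tsum_eq_single 0]
  · simp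
  · intro n hn
    simp [hn]

theorem isInner_symm : IsInner (symm af) := by
  rw [symm_eq]
  refine ⟨?_, ?_, ?_⟩
  · unfold MemH2
    apply summable_of_ne_finset_zero (s := {0})
    intro n hn
    have : n ≠ 0 := by simpa using hn
    simp [this]
  · intro q _
    rw [series_one, norm_one]
  · filter_upwards with p
    refine ⟨1, ?_, norm_one⟩
    simp_rw [series_one]
    exact tendsto_const_nhds

theorem norm_af (n : ℕ) : ‖af n‖ = (n.factorial : ℝ)⁻¹ := by
  unfold af
  rw [norm_smul, norm_pow, norm_qi, one_pow, mul_one, Real.norm_of_nonneg (by positivity)]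

theorem memH2_af : MemH2 af := by
  unfold MemH2
  simp_rw [norm_af]
  have h := Real.summable_pow_div_factorial 1
  refine Summable.of_nonneg_of_le (fun n => by positivity) (fun n => ?_) h
  rw [one_pow, one_div]
  have h1 : (1 : ℝ) ≤ n.factorial := by exact_mod_cast n.factorial_pos
  have h2 : ((n.factorial : ℝ))⁻¹ ≤ 1 := inv_le_one_of_one_le₀ h1
  have h3 : 0 ≤ ((n.factorial : ℝ))⁻¹ := by positivity
  nlinarith

/-- value at `-i/2`, resp. at `i/2` for the conjugate -/
theorem big_value (s : ℍ[ℝ]) (a : ℕ → ℍ[ℝ])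
    (h : ∀ n, s ^ n * a n = (((1 / 2 : ℝ) ^ n / n.factorial : ℝ) : ℍ[ℝ])) : 1 < ‖series a s‖ := by
  unfold series
  simp_rw [h]
  have hs : Summable (fun n : ℕ => (1 / 2 : ℝ) ^ n / n.factorial) := Real.summable_pow_div_factorial _
  have h1 : ∑' n : ℕ, (((1 / 2 : ℝ) ^ n / n.factorial : ℝ) : ℍ[ℝ]) = ((∑' n : ℕ, (1 / 2 : ℝ) ^ n / n.factorial : ℝ) : ℍ[ℝ]) := by
    exact (Quaternion.hasSum_coe.mpr hs.hasSum).tsum_eq
  rw [h1, Quaternion.norm_coe]
  have h2 : ∑ n ∈ range 2, (1 / 2 : ℝ) ^ n / n.factorial ≤ ∑' n : ℕ, (1 / 2 : ℝ) ^ n / n.factorial :=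
    hs.sum_le_tsum _ (fun n _ => by positivity)
  have h3 : ∑ n ∈ range 2, (1 / 2 : ℝ) ^ n / n.factorial = 3 / 2 := by
    norm_num [sum_range_succ]
  rw [h3] at h2
  rw [Real.norm_eq_abs, abs_of_nonneg (by linarith)]
  linarith

theorem value_f : 1 < ‖series af (-((1 / 2 : ℝ) • qi))‖ := by
  apply big_value
  intro n
  unfold af
  rw [← smul_neg, smul_pow, smul_mul_smul_comm, ← (Commute.neg_left (Commute.refl qi)).mul_pow, neg_mul, qi_sq, neg_neg, one_pow]
  rw [← Quaternion.coe_one, ← Quaternion.coe_smul]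
  congr 1
  simp [div_eq_mul_inv]

theorem value_fc : 1 < ‖series (conjCoeff af) ((1 / 2 : ℝ) • qi)‖ := by
  apply big_value
  intro n
  unfold conjCoeff
  rw [star_af, smul_pow, smul_mul_smul_comm, ← (Commute.neg_right (Commute.refl qi)).mul_pow, mul_neg, qi_sq, neg_neg, one_pow]
  rw [← Quaternion.coe_one, ← Quaternion.coe_smul]
  congr 1
  simp [div_eq_mul_inv]

theorem norm_half : ‖(1 / 2 : ℝ) • qi‖ < 1 := by
  rw [norm_smul, norm_qi]
  norm_num

/-- There is `f ∈ H²(𝔹)` such that its symmetrization is inner but neither `f` nor its conjugate is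
inner; indeed both take values of norm greater than `1` in the open unit ball. -/
theorem result : ∃ a : ℕ → ℍ[ℝ], MemH2 a ∧ IsInner (symm a) ∧ ¬ IsInner a ∧ ¬ IsInner (conjCoeff a) := by
  refine ⟨af, memH2_af, isInner_symm, ?_, ?_⟩
  · rintro ⟨_, h, _⟩
    have h1 := h (-((1 / 2 : ℝ) • qi)) (by rw [norm_neg]; exact norm_half)
    exact absurd value_f (not_lt.mpr h1)
  · rintro ⟨_, h, _⟩
    have h1 := h ((1 / 2 : ℝ) • qi) norm_half
    exact absurd value_fc (not_lt.mpr h1)

end Pool.Agent.Results.MP_3b44a3_an.SymmetrizationInner
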